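import Pool.Agent.helper23.CU.Spec

/-!
# Project cu, module CC: clusters of broken edges are closed and partition the broken edges
-/

set_option autoImplicit false

open Finset Filter Topology

namespace CU

theorem CC_mem {d n : ℕ} [NeZero n] (σ : Conf d n) (e e' : Edge d n) :
    e' ∈ clus σ e ↔ e' ∈ brk σ ∧ (Gr σ).Reachable e e' := by
  simp only [clus, Finset.mem_filter]

theorem CC_mem2 {d n : ℕ} [NeZero n] (σ : Conf d n) (K : Finset (Edge d n)) :
    K ∈ clusters σ ↔ ∃ e ∈ brk σ, clus σ e = K := by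
  unfold clusters
  rw [Finset.mem_image]

theorem CC_eq {d n : ℕ} [NeZero n] (σ : Conf d n) (e e' : Edge d n) (h : e' ∈ clus σ e) :
    clus σ e' = clus σ e := by
  rw [CC_mem] at h
  ext f
  rw [CC_mem, CC_mem]
  constructor
  · rintro ⟨h1, h2⟩
    exact ⟨h1, h.2.trans h2⟩
  · rintro ⟨h1, h2⟩
    exact ⟨h1, h.2.symm.trans h2⟩

theorem CC_bv {d n : ℕ} [NeZero n] (σ : Conf d n) (e : Edge d n) :
    (if e ∈ brk σ then (1 : ZMod 2) else 0) = bv (σ e.1) + bv (σ (e.1 + ev e.2)) := by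
  unfold brk
  simp only [Finset.mem_filter, Finset.mem_univ, true_and]
  cases σ e.1 <;> cases σ (e.1 + ev e.2) <;> simp [bv]
  decide

theorem CC_closed {d n : ℕ} [NeZero n] (σ : Conf d n) (K : Finset (Edge d n))
    (hK : K ∈ clusters σ) : Closed K := by
  rw [CC_mem2] at hK
  obtain ⟨e0, he0, rfl⟩ := hK
  intro x i j hij
  have key : ∀ f ∈ sq x i j, ∀ g ∈ sq x i j, f ∈ clus σ e0 → g ∈ brk σ → g ∈ clus σ e0 := by
    intro f hf g hg hfK hgb
    by_cases hfg : f = g
    · rw [← hfg]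
      exact hfK
    · rw [CC_mem] at hfK ⊢
      refine ⟨hgb, hfK.2.trans ?_⟩
      apply SimpleGraph.Adj.reachable
      exact ⟨⟨hfg, x, i, j, hij, hf, hg⟩, hfK.1, hgb⟩
  have m1 : ((x, i) : Edge d n) ∈ sq x i j := by simp [sq]
  have m2 : ((x + ev i, j) : Edge d n) ∈ sq x i j := by simp [sq]
  have m3 : ((x + ev j, i) : Edge d n) ∈ sq x i j := by simp [sq]
  have m4 : ((x, j) : Edge d n) ∈ sq x i j := by simp [sq]
  by_cases hex : ∃ f ∈ sq x i j, f ∈ clus σ e0
  · obtain ⟨f, hf, hfK⟩ := hex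
    have hiff : ∀ g ∈ sq x i j, (if g ∈ clus σ e0 then (1 : ZMod 2) else 0) =
        if g ∈ brk σ then 1 else 0 := by
      intro g hg
      by_cases hgb : g ∈ brk σ
      · rw [if_pos hgb, if_pos (key f hf g hg hfK hgb)]
      · rw [if_neg hgb, if_neg fun h => hgb ((CC_mem σ e0 g).1 h).1]
    rw [hiff _ m1, hiff _ m2, hiff _ m3, hiff _ m4, CC_bv, CC_bv, CC_bv, CC_bv]
    simp only
    rw [add_right_comm x (ev j) (ev i)]
    generalize bv (σ x) = a
    generalize bv (σ (x + ev i)) = b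
    generalize bv (σ (x + ev j)) = c
    generalize bv (σ (x + ev i + ev j)) = e
    revert a b c e
    decide
  · push Not at hex
    rw [if_neg (hex _ m1), if_neg (hex _ m2), if_neg (hex _ m3), if_neg (hex _ m4)]
    simp

theorem CC : CC_stmt := by
  intro d n _ _ σ
  refine ⟨fun K hK => CC_closed σ K hK, ?_, ?_⟩
  · intro e
    by_cases he : e ∈ brk σ
    · rw [if_pos he]
      have hself : e ∈ clus σ e := (CC_mem σ e e).2 ⟨he, SimpleGraph.Reachable.refl e⟩
      rw [Finset.sum_eq_single (clus σ e)]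
      · rw [if_pos hself]
      · intro K hK hne
        rw [if_neg]
        intro heK
        apply hne
        obtain ⟨e0, -, rfl⟩ := (CC_mem2 σ K).1 hK
        exact (CC_eq σ e0 e heK).symm
      · intro h
        exact absurd ((CC_mem2 σ _).2 ⟨e, he, rfl⟩) h
    · rw [if_neg he]
      apply Finset.sum_eq_zero
      intro K hK
      rw [if_neg]
      intro heK
      obtain ⟨e0, -, rfl⟩ := (CC_mem2 σ K).1 hK
      exact he ((CC_mem σ e0 e).1 heK).1
  · intro K hK
    obtain ⟨e0, he0, rfl⟩ := (CC_mem2 σ K).1 hK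
    refine ⟨⟨e0, (CC_mem σ e0 e0).2 ⟨he0, SimpleGraph.Reachable.refl e0⟩⟩, ?_, ?_⟩
    · intro e he
      exact ((CC_mem σ e0 e).1 he).1
    · intro e he
      exact CC_eq σ e0 e he

end CU
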