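import Pool.Agent.helper23.CU.Spec

/-!
# Project cu, module DG: an edge has at most `6(d-1)` square neighbours
-/

set_option autoImplicit false

open Finset Filter Topology

namespace CU

theorem DG : DG_stmt := by
  intro d n _ e S hS
  obtain ⟨p, k⟩ := e
  have hsub : S ⊆ (Finset.univ.erase k).biUnion (fun l => ({(p, l), (p + ev k, l), (p + ev l, k),
      (p - ev l, l), (p - ev l, k), (p - ev l + ev k, l)} : Finset (Edge d n))) := by
    intro e' he'
    obtain ⟨hne, x, i, j, hij, h1, h2⟩ := hS e' he'
    simp only [sq, mem_insert, mem_singleton] at h1 h2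
    simp only [mem_biUnion, mem_erase, mem_univ, and_true, mem_insert, mem_singleton]
    rcases h1 with h1 | h1 | h1 | h1
    · obtain ⟨rfl, rfl⟩ := Prod.mk.inj h1
      refine ⟨j, hij.symm, ?_⟩
      rcases h2 with h2 | h2 | h2 | h2
      · exact absurd h2.symm hne
      · exact Or.inl h2
      · exact Or.inr (Or.inl h2)
      · exact Or.inr (Or.inr (Or.inl h2))
    · obtain ⟨rfl, rfl⟩ := Prod.mk.inj h1
      refine ⟨i, hij, ?_⟩
      rcases h2 with h2 | h2 | h2 | h2
      · exact Or.inl h2
      · exact absurd h2.symm hne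
      · exact Or.inr (Or.inr (Or.inl h2))
      · exact Or.inr (Or.inl h2)
    · obtain ⟨ha, rfl⟩ := Prod.mk.inj h1
      obtain rfl : x = p - ev i := by rw [ha]; simp
      refine ⟨i, hij, ?_⟩
      rcases h2 with h2 | h2 | h2 | h2
      · exact Or.inr (Or.inr (Or.inr (Or.inl h2)))
      · exact Or.inr (Or.inr (Or.inr (Or.inr (Or.inl h2))))
      · exact absurd (h2.trans h1.symm).symm hne
      · exact Or.inr (Or.inr (Or.inr (Or.inr (Or.inr h2))))
    · obtain ⟨ha, rfl⟩ := Prod.mk.inj h1
      obtain rfl : x = p - ev j := by rw [ha]; simp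
      refine ⟨j, hij.symm, ?_⟩
      rcases h2 with h2 | h2 | h2 | h2
      · exact Or.inr (Or.inr (Or.inr (Or.inr (Or.inl h2))))
      · exact Or.inr (Or.inr (Or.inr (Or.inl h2)))
      · exact Or.inr (Or.inr (Or.inr (Or.inr (Or.inr h2))))
      · exact absurd (h2.trans h1.symm).symm hne
  calc S.card ≤ _ := Finset.card_le_card hsub
    _ ≤ (Finset.univ.erase k).card * 6 :=
        Finset.card_biUnion_le_card_mul _ _ _ fun l _ => Finset.card_le_six
    _ = 6 * (d - 1) := by
        rw [Finset.card_erase_of_mem (Finset.mem_univ k), Finset.card_univ, Fintype.card_fin,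
          mul_comm]

end CU
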